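import Mathlib

set_option autoImplicit false

namespace Pool.Agent.Results.MP_1a7c10_an.KaltonLp

open Set Filter Topology

universe u v

/-- A `p`-norm on a vector space `X` over `𝕜`: a nonnegative, definite, absolutely homogeneous
function with `‖x + y‖ ^ p ≤ ‖x‖ ^ p + ‖y‖ ^ p`. -/
structure PNorm (𝕜 : Type v) [RCLike 𝕜] (p : ℝ) (X : Type u) [AddCommGroup X] [Module 𝕜 X] where
  /-- the value of the `p`-norm -/
  nrm : X → ℝ
  nonneg : ∀ x, 0 ≤ nrm x
  eq_zero : ∀ x, nrm x = 0 → x = 0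
  smul : ∀ (a : 𝕜) (x : X), nrm (a • x) = ‖a‖ * nrm x
  add_rpow_le : ∀ x y, nrm (x + y) ^ p ≤ nrm x ^ p + nrm y ^ p

section Defs

variable {𝕜 : Type v} [RCLike 𝕜] {p : ℝ}

/-- Completeness of a `p`-normed space (then it is a `p`-Banach space): every Cauchy sequence
converges. -/
def PNorm.IsComplete {X : Type u} [AddCommGroup X] [Module 𝕜 X] (N : PNorm 𝕜 p X) : Prop :=
  ∀ s : ℕ → X, (∀ ε > 0, ∃ n₀, ∀ m ≥ n₀, ∀ n ≥ n₀, N.nrm (s m - s n) < ε) →
    ∃ x, Tendsto (fun n => N.nrm (s n - x)) atTop (𝓝 0)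

/-- `x` lies in the closed linear span of the set `S`. -/
def PNorm.ClosedSpan {X : Type u} [AddCommGroup X] [Module 𝕜 X] (N : PNorm 𝕜 p X) (S : Set X) :
    Set X :=
  {x | ∀ ε > 0, ∃ y ∈ Submodule.span 𝕜 S, N.nrm (x - y) < ε}

/-- `f : M → Y` is `C`-Lipschitz. -/
def LipBound {M : Type u} [MetricSpace M] {Y : Type u} [AddCommGroup Y] [Module 𝕜 Y]
    (NY : PNorm 𝕜 p Y) (f : M → Y) (C : ℝ) : Prop :=
  ∀ x y, NY.nrm (f x - f y) ≤ C * dist x y

/-- The linear map `T` is bounded by `C`: `‖T x‖ ≤ C ‖x‖` for all `x`. -/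
def OpBound {F Y : Type u} [AddCommGroup F] [Module 𝕜 F] [AddCommGroup Y] [Module 𝕜 Y]
    (N : PNorm 𝕜 p F) (NY : PNorm 𝕜 p Y) (T : F →ₗ[𝕜] Y) (C : ℝ) : Prop :=
  ∀ x, NY.nrm (T x) ≤ C * N.nrm x

/-- `(F, N, δ)` is the Lipschitz free `p`-space over the metric space `M` with base point `o`:
`F` is a `p`-Banach space, `δ : M → F` is an isometric embedding with `δ o = 0`, the range of `δ`
has dense linear span, and for every
`p`-Banach space `Y` and every Lipschitz `f : M → Y` with `f o = 0` there is a unique bounded linear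
`T : F → Y` with `T ∘ δ = f`, and the norm of `T` is the Lipschitz constant of `f`
(for every `C ≥ 0`, `T` is bounded by `C` iff `f` is `C`-Lipschitz). -/
structure IsFreePSpace (𝕜 : Type v) [RCLike 𝕜] (p : ℝ) (M : Type u) [MetricSpace M] (o : M)
    (F : Type u) [AddCommGroup F] [Module 𝕜 F] (N : PNorm 𝕜 p F) (δ : M → F) : Prop where
  complete : N.IsComplete
  map_base : δ o = 0
  isometry : ∀ x y : M, N.nrm (δ x - δ y) = dist x y
  dense : ∀ x : F, x ∈ N.ClosedSpan (range δ)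
  lift : ∀ (Y : Type u) [AddCommGroup Y] [Module 𝕜 Y] (NY : PNorm 𝕜 p Y), NY.IsComplete →
    ∀ f : M → Y, f o = 0 → (∃ C, LipBound NY f C) →
      ∃ T : F →ₗ[𝕜] Y, (∀ x, T (δ x) = f x) ∧
        (∀ C : ℝ, 0 ≤ C → (OpBound N NY T C ↔ LipBound NY f C)) ∧
        ∀ T' : F →ₗ[𝕜] Y, (∃ C, OpBound N NY T' C) → (∀ x, T' (δ x) = f x) → T' = T

/-- Kalton's property of a set `W ⊆ F_p(M)`: for all `ε, r > 0` there is a finite `E ⊆ M` with
`W ⊆ F_p([E]_r ; M) + ε B`. -/
def KaltonProperty {M : Type u} [MetricSpace M] {F : Type u} [AddCommGroup F] [Module 𝕜 F]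
    (N : PNorm 𝕜 p F) (δ : M → F) (W : Set F) : Prop :=
  ∀ ε > 0, ∀ r > 0, ∃ E : Finset M, ∀ w ∈ W,
    ∃ z ∈ N.ClosedSpan (δ '' {x | ∃ e ∈ E, dist x e ≤ r}), N.nrm (w - z) ≤ ε

/-- The sequence `x` is equivalent to the canonical basis of `ℓ_p`. -/
def EquivLpBasis {F : Type u} [AddCommGroup F] [Module 𝕜 F] (N : PNorm 𝕜 p F) (x : ℕ → F) : Prop :=
  ∃ c C : ℝ, 0 < c ∧ c ≤ C ∧ ∀ a : ℕ →₀ 𝕜,
    c * (∑ n ∈ a.support, ‖a n‖ ^ p) ^ (1 / p) ≤ N.nrm (∑ n ∈ a.support, a n • x n) ∧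
    N.nrm (∑ n ∈ a.support, a n • x n) ≤ C * (∑ n ∈ a.support, ‖a n‖ ^ p) ^ (1 / p)

end Defs

section Basic

variable {𝕜 : Type v} [RCLike 𝕜] {p : ℝ}
variable {X : Type u} [AddCommGroup X] [Module 𝕜 X] (N : PNorm 𝕜 p X)

lemma PNorm.map_zero : N.nrm 0 = 0 := by
  have := N.smul (0 : 𝕜) (0 : X)
  simpa using this

lemma PNorm.map_neg (x : X) : N.nrm (-x) = N.nrm x := by
  have := N.smul (-1 : 𝕜) x
  simpa using this

lemma PNorm.map_sub_comm (x y : X) : N.nrm (x - y) = N.nrm (y - x) := by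
  rw [← neg_sub, N.map_neg]

/-- the `p`-th power of the `p`-norm -/
noncomputable def PNorm.q (x : X) : ℝ := N.nrm x ^ p

lemma PNorm.q_nonneg (x : X) : 0 ≤ N.q x := Real.rpow_nonneg (N.nonneg x) p

lemma PNorm.q_zero (hp : 0 < p) : N.q 0 = 0 := by
  unfold PNorm.q; rw [N.map_zero, Real.zero_rpow hp.ne']

lemma PNorm.q_neg (x : X) : N.q (-x) = N.q x := by unfold PNorm.q; rw [N.map_neg]

lemma PNorm.q_add (x y : X) : N.q (x + y) ≤ N.q x + N.q y := N.add_rpow_le x y

lemma PNorm.q_sub (x y : X) : N.q (x - y) ≤ N.q x + N.q y := by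
  rw [sub_eq_add_neg]
  calc N.q (x + -y) ≤ N.q x + N.q (-y) := N.q_add _ _
    _ = _ := by rw [N.q_neg]

lemma PNorm.q_smul (a : 𝕜) (x : X) : N.q (a • x) = ‖a‖ ^ p * N.q x := by
  unfold PNorm.q
  rw [N.smul, Real.mul_rpow (norm_nonneg _) (N.nonneg _)]

lemma PNorm.q_sum (hp : 0 < p) {ι : Type*} (s : Finset ι) (f : ι → X) :
    N.q (∑ i ∈ s, f i) ≤ ∑ i ∈ s, N.q (f i) := by
  classical
  induction s using Finset.induction_on with
  | empty => simp [N.q_zero hp]
  | insert a s ha ih =>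
    rw [Finset.sum_insert ha, Finset.sum_insert ha]
    exact (N.q_add _ _).trans (by linarith)

lemma PNorm.q_le_add_sub (x y : X) : N.q x ≤ N.q y + N.q (x - y) := by
  have := N.q_add y (x - y)
  simpa using this

lemma PNorm.nrm_le_of_q_le (hp : 0 < p) {x : X} {c : ℝ} (h : N.q x ≤ c) :
    N.nrm x ≤ c ^ (1 / p) := by
  have h1 : (N.q x) ^ (1 / p) ≤ c ^ (1 / p) :=
    Real.rpow_le_rpow (N.q_nonneg x) h (by positivity)
  rwa [PNorm.q, ← Real.rpow_mul (N.nonneg x), mul_one_div_cancel hp.ne', Real.rpow_one] at h1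

lemma PNorm.q_lt_of_nrm_lt (hp : 0 < p) {x : X} {c : ℝ} (h : N.nrm x < c) :
    N.q x < c ^ p := Real.rpow_lt_rpow (N.nonneg x) h hp

/-- The `ℓ_p`-power of a `p`-normed space with `m` coordinates. -/
noncomputable def PNorm.pi (hp : 0 < p) (m : ℕ) : PNorm 𝕜 p (Fin m → X) where
  nrm y := (∑ i, N.q (y i)) ^ (1 / p)
  nonneg y := Real.rpow_nonneg (Finset.sum_nonneg fun i _ => N.q_nonneg _) _
  eq_zero y h := by
    have h0 : 0 ≤ ∑ i, N.q (y i) := Finset.sum_nonneg fun i _ => N.q_nonneg _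
    have h1 : ∑ i, N.q (y i) = 0 := by
      by_contra hne
      have hpos : 0 < ∑ i, N.q (y i) := lt_of_le_of_ne h0 (Ne.symm hne)
      have := Real.rpow_pos_of_pos hpos (1 / p)
      linarith
    funext i
    have h2 := (Finset.sum_eq_zero_iff_of_nonneg (fun i _ => N.q_nonneg (y i))).1 h1 i
      (Finset.mem_univ i)
    apply N.eq_zero
    by_contra hne
    have hpos : 0 < N.nrm (y i) := lt_of_le_of_ne (N.nonneg _) (Ne.symm hne)
    have := Real.rpow_pos_of_pos hpos p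
    rw [PNorm.q] at h2
    linarith
  smul a y := by
    have h0 : 0 ≤ ∑ i, N.q (y i) := Finset.sum_nonneg fun i _ => N.q_nonneg _
    simp only [Pi.smul_apply, N.q_smul, ← Finset.mul_sum]
    rw [Real.mul_rpow (Real.rpow_nonneg (norm_nonneg _) _) h0, ← Real.rpow_mul (norm_nonneg _),
      mul_one_div_cancel hp.ne', Real.rpow_one]
  add_rpow_le x y := by
    have h0 : ∀ z : Fin m → X, 0 ≤ ∑ i, N.q (z i) := fun z =>
      Finset.sum_nonneg fun i _ => N.q_nonneg _
    have h1 : ∀ z : Fin m → X, ((∑ i, N.q (z i)) ^ (1 / p)) ^ p = ∑ i, N.q (z i) := fun z => by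
      rw [← Real.rpow_mul (h0 z), one_div_mul_cancel hp.ne', Real.rpow_one]
    rw [h1, h1, h1, ← Finset.sum_add_distrib]
    exact Finset.sum_le_sum fun i _ => N.q_add _ _

lemma PNorm.pi_q (hp : 0 < p) (m : ℕ) (y : Fin m → X) : (N.pi hp m).q y = ∑ i, N.q (y i) := by
  have h0 : 0 ≤ ∑ i, N.q (y i) := Finset.sum_nonneg fun i _ => N.q_nonneg _
  change ((∑ i, N.q (y i)) ^ (1 / p)) ^ p = _
  rw [← Real.rpow_mul h0, one_div_mul_cancel hp.ne', Real.rpow_one]

lemma PNorm.nrm_apply_le_pi (hp : 0 < p) (m : ℕ) (y : Fin m → X) (i : Fin m) :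
    N.nrm (y i) ≤ (N.pi hp m).nrm y := by
  exact N.nrm_le_of_q_le hp
    (Finset.single_le_sum (f := fun i => N.q (y i)) (fun i _ => N.q_nonneg _) (Finset.mem_univ i))

lemma PNorm.pi_complete (hp : 0 < p) (m : ℕ) (hN : N.IsComplete) : (N.pi hp m).IsComplete := by
  intro s hs
  have h1 : ∀ i, ∃ x, Tendsto (fun n => N.nrm (s n i - x)) atTop (𝓝 0) := by
    intro i
    apply hN
    intro ε hε
    obtain ⟨n₀, hn₀⟩ := hs ε hε
    refine ⟨n₀, fun a ha b hb => lt_of_le_of_lt ?_ (hn₀ a ha b hb)⟩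
    exact N.nrm_apply_le_pi hp m (s a - s b) i
  choose x hx using h1
  refine ⟨x, ?_⟩
  have h2 : Tendsto (fun n => (∑ i, N.q (s n i - x i)) ^ (1 / p)) atTop
      (𝓝 ((∑ _i : Fin m, (0 : ℝ)) ^ (1 / p))) := by
    apply Tendsto.rpow_const
    · apply tendsto_finsetSum
      intro i _
      have := (hx i).rpow_const (p := p) (Or.inr hp.le)
      rwa [Real.zero_rpow hp.ne'] at this
    · exact Or.inr (by positivity)
  rw [Finset.sum_const_zero, Real.zero_rpow (one_div_pos.2 hp).ne'] at h2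
  exact h2

end Basic

section Rosenthal

/-- Rosenthal's lemma for a nonnegative matrix with bounded row sums. -/
lemma rosenthal (η : ℝ) (hη : 0 < η) :
    ∀ (k : ℕ) (a : ℕ → ℕ → ℝ), (∀ i j, 0 ≤ a i j) →
      (∀ n, ∀ G : Finset ℕ, n ∉ G → ∑ i ∈ G, a n i ≤ k * η) →
      ∃ φ : ℕ → ℕ, Function.Injective φ ∧
        ∀ j, ∀ G : Finset ℕ, j ∉ G → ∑ i ∈ G, a (φ j) (φ i) ≤ η := by
  intro k
  induction k with
  | zero =>
    intro a _ h
    refine ⟨id, Function.injective_id, fun j G hj => ?_⟩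
    have := h j G hj
    simp only [Nat.cast_zero, zero_mul] at this
    exact this.trans hη.le
  | succ k ih =>
    intro a ha h
    -- split `ℕ` into infinitely many copies of `ℕ`
    let e : ℕ → ℕ → ℕ := fun j i => Nat.pair j i
    by_cases hex : ∃ j, ∀ n, ∀ G : Finset ℕ, n ∉ G → ∑ i ∈ G, a (e j n) (e j i) ≤ η
    · obtain ⟨j, hj⟩ := hex
      refine ⟨e j, fun x y hxy => ?_, hj⟩
      have := (Nat.pair_eq_pair.1 hxy).2
      exact this
    · push Not at hex
      choose n G hnG hG using hex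
      let ψ : ℕ → ℕ := fun j => e j (n j)
      have hψ : Function.Injective ψ := fun x y hxy => (Nat.pair_eq_pair.1 hxy).1
      have hrow : ∀ j, ∀ H : Finset ℕ, j ∉ H → ∑ i ∈ H, a (ψ j) (ψ i) ≤ k * η := by
        intro j H hjH
        classical
        have hdisj : Disjoint (H.image ψ) ((G j).image (e j)) := by
          rw [Finset.disjoint_left]
          intro x hx hx'
          obtain ⟨i, hi, rfl⟩ := Finset.mem_image.1 hx
          obtain ⟨l, hl, hl'⟩ := Finset.mem_image.1 hx'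
          have := (Nat.pair_eq_pair.1 hl').1
          subst this
          exact hjH hi
        have hnot : ψ j ∉ (H.image ψ) ∪ ((G j).image (e j)) := by
          rw [Finset.mem_union, not_or]
          constructor
          · intro hx
            obtain ⟨i, hi, hi'⟩ := Finset.mem_image.1 hx
            have := hψ hi'
            subst this
            exact hjH hi
          · intro hx
            obtain ⟨l, hl, hl'⟩ := Finset.mem_image.1 hx
            have := (Nat.pair_eq_pair.1 hl').2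
            subst this
            exact hnG j hl
        have h1 := h (ψ j) _ hnot
        rw [Finset.sum_union hdisj, Finset.sum_image (fun x _ y _ hxy => hψ hxy),
          Finset.sum_image (fun x _ y _ hxy => (Nat.pair_eq_pair.1 hxy).2)] at h1
        have h2 := hG j
        push_cast at h1
        have h3 : ∑ i ∈ G j, a (ψ j) (e j i) = ∑ i ∈ G j, a (e j (n j)) (e j i) := rfl
        rw [h3] at h1
        linarith
      obtain ⟨φ, hφ, hφ'⟩ := ih (fun i j => a (ψ i) (ψ j)) (fun i j => ha _ _) hrow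
      exact ⟨ψ ∘ φ, hψ.comp hφ, hφ'⟩

end Rosenthal

section Mult

variable {𝕜 : Type v} [RCLike 𝕜] {p : ℝ}
variable {M : Type u} [MetricSpace M] {o : M}
variable {F : Type u} [AddCommGroup F] [Module 𝕜 F] {N : PNorm 𝕜 p F} {δ : M → F}

lemma sum_ite_le {m : ℕ} (P : Fin m → Prop) [DecidablePred P] (c : ℝ) (hc : 0 ≤ c)
    (h : ∀ i j, P i → P j → i = j) : ∑ i, (if P i then c else 0) ≤ c := by
  by_cases hex : ∃ i, P i
  · obtain ⟨i, hi⟩ := hex
    rw [Finset.sum_eq_single i]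
    · simp [hi]
    · intro j _ hji
      rw [if_neg]
      intro hj
      exact hji (h j i hj hi)
    · simp
  · push Not at hex
    simp [hex, hc]

lemma q_delta_sub (hF : IsFreePSpace 𝕜 p M o F N δ) (x y : M) :
    N.q (δ x - δ y) = dist x y ^ p := by
  unfold PNorm.q; rw [hF.isometry]

lemma q_delta (hF : IsFreePSpace 𝕜 p M o F N δ) (x : M) :
    N.q (δ x) = dist x o ^ p := by
  have := q_delta_sub hF x o
  rwa [hF.map_base, sub_zero] at this

/-- The constant bounding the multiplication operators. -/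
noncomputable def K (p D L : ℝ) : ℝ := 1 + 2 * (L ^ p * D ^ p)

lemma K_pos {p D L : ℝ} (hD : 0 ≤ D) (hL : 0 ≤ L) : 0 < K p D L := by
  unfold K; positivity

/-- Simultaneous multiplication operators for finitely many disjointly supported Lipschitz
functions. -/
lemma exists_mul (hp : 0 < p) (hF : IsFreePSpace 𝕜 p M o F N δ) {D L : ℝ} (hD : 0 ≤ D)
    (hL : 0 ≤ L) (hbdd : ∀ x y : M, dist x y ≤ D) (m : ℕ) (ψ : Fin m → M → ℝ)
    (h0 : ∀ i x, 0 ≤ ψ i x) (h1 : ∀ i x, ψ i x ≤ 1)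
    (hlip : ∀ i x y, |ψ i x - ψ i y| ≤ L * dist x y)
    (hdisj : ∀ x i j, ψ i x ≠ 0 → ψ j x ≠ 0 → i = j) :
    ∃ T : Fin m → (F →ₗ[𝕜] F), (∀ i x, T i (δ x) = ((ψ i x : ℝ) : 𝕜) • δ x) ∧
      ∀ y, ∑ i, N.q (T i y) ≤ K p D L * N.q y := by
  classical
  let f : M → (Fin m → F) := fun x i => ((ψ i x : ℝ) : 𝕜) • δ x
  have hK : 0 < K p D L := K_pos hD hL
  have hf0 : f o = 0 := by
    funext i
    simp only [f, hF.map_base, smul_zero, Pi.zero_apply]
  have key : ∀ x y, (N.pi hp m).q (f x - f y) ≤ K p D L * dist x y ^ p := by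
    intro x y
    rw [PNorm.pi_q]
    have hdp : 0 ≤ dist x y ^ p := Real.rpow_nonneg dist_nonneg p
    have hterm : ∀ i, N.q ((f x - f y) i) ≤
        (if ψ i x ≠ 0 then dist x y ^ p else 0)
        + ((if ψ i x ≠ 0 then (L * dist x y) ^ p * D ^ p else 0)
          + (if ψ i y ≠ 0 then (L * dist x y) ^ p * D ^ p else 0)) := by
      intro i
      have e1 : (f x - f y) i = ((ψ i x : ℝ) : 𝕜) • (δ x - δ y)
          + (((ψ i x - ψ i y : ℝ)) : 𝕜) • δ y := by
        simp only [f, Pi.sub_apply]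
        push_cast
        rw [smul_sub, sub_smul]
        abel
      rw [e1]
      refine (N.q_add _ _).trans (add_le_add ?_ ?_)
      · rw [N.q_smul, q_delta_sub hF, RCLike.norm_ofReal, abs_of_nonneg (h0 i x)]
        split_ifs with hne
        · calc ψ i x ^ p * dist x y ^ p ≤ 1 * dist x y ^ p := by
                gcongr
                exact Real.rpow_le_one (h0 i x) (h1 i x) hp.le
            _ = _ := one_mul _
        · push Not at hne
          rw [hne, Real.zero_rpow hp.ne', zero_mul]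
      · rw [N.q_smul, q_delta hF, RCLike.norm_ofReal]
        have hpos : 0 ≤ (L * dist x y) ^ p * D ^ p := by positivity
        have hmain : |ψ i x - ψ i y| ^ p * dist y o ^ p ≤ (L * dist x y) ^ p * D ^ p := by
          gcongr
          · exact hlip i x y
          · exact hbdd y o
        by_cases hx : ψ i x ≠ 0
        · rw [if_pos hx]
          by_cases hy : ψ i y ≠ 0
          · rw [if_pos hy]; linarith
          · rw [if_neg hy]; linarith
        · rw [if_neg hx]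
          by_cases hy : ψ i y ≠ 0
          · rw [if_pos hy]; linarith
          · rw [if_neg hy]
            push Not at hx hy
            rw [hx, hy, sub_zero, abs_zero, Real.zero_rpow hp.ne']
            simp
    refine (Finset.sum_le_sum fun i _ => hterm i).trans ?_
    rw [Finset.sum_add_distrib, Finset.sum_add_distrib]
    have a1 := sum_ite_le (fun i => ψ i x ≠ 0) (dist x y ^ p) hdp (hdisj x)
    have a2 := sum_ite_le (fun i => ψ i x ≠ 0) ((L * dist x y) ^ p * D ^ p) (by positivity)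
      (hdisj x)
    have a3 := sum_ite_le (fun i => ψ i y ≠ 0) ((L * dist x y) ^ p * D ^ p) (by positivity)
      (hdisj y)
    have e2 : (L * dist x y) ^ p = L ^ p * dist x y ^ p := Real.mul_rpow hL dist_nonneg
    rw [e2] at a2 a3
    have : K p D L * dist x y ^ p
        = dist x y ^ p + (L ^ p * dist x y ^ p * D ^ p + L ^ p * dist x y ^ p * D ^ p) := by
      unfold K; ring
    rw [this, e2]
    linarith
  have hlipf : LipBound (N.pi hp m) f (K p D L ^ (1 / p)) := by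
    intro x y
    have := (N.pi hp m).nrm_le_of_q_le hp (key x y)
    rwa [Real.mul_rpow hK.le (Real.rpow_nonneg dist_nonneg _), ← Real.rpow_mul dist_nonneg,
      mul_one_div_cancel hp.ne', Real.rpow_one] at this
  obtain ⟨T, hT, hTb, -⟩ := hF.lift (Fin m → F) (N.pi hp m) (N.pi_complete hp m hF.complete) f hf0
    ⟨_, hlipf⟩
  have hTbd := (hTb (K p D L ^ (1 / p)) (by positivity)).2 hlipf
  refine ⟨fun i => (LinearMap.proj i).comp T, fun i x => ?_, fun y => ?_⟩
  · simp [hT, f]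
  · have h2 := hTbd y
    have h3 : (N.pi hp m).q (T y) ≤ (K p D L ^ (1 / p) * N.nrm y) ^ p :=
      Real.rpow_le_rpow ((N.pi hp m).nonneg _) h2 hp.le
    rw [PNorm.pi_q, Real.mul_rpow (by positivity) (N.nonneg _), ← Real.rpow_mul hK.le,
      one_div_mul_cancel hp.ne', Real.rpow_one] at h3
    exact h3

/-- Small approximation in the `q` sense. -/
lemma exists_span_q_lt (hp : 0 < p) {S : Set F} {x : F} (hx : x ∈ N.ClosedSpan S) {η : ℝ}
    (hη : 0 < η) : ∃ y ∈ Submodule.span 𝕜 S, N.q (x - y) < η := by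
  obtain ⟨y, hy, hy'⟩ := hx (η ^ (1 / p)) (Real.rpow_pos_of_pos hη _)
  refine ⟨y, hy, ?_⟩
  have := N.q_lt_of_nrm_lt hp hy'
  rwa [← Real.rpow_mul hη.le, one_div_mul_cancel hp.ne', Real.rpow_one] at this

lemma mem_closedSpan_of_q (hp : 0 < p) {S : Set F} {x : F}
    (h : ∀ η > 0, ∃ y ∈ Submodule.span 𝕜 S, N.q (x - y) < η) : x ∈ N.ClosedSpan S := by
  intro ε hε
  obtain ⟨y, hy, hy'⟩ := h (ε ^ p) (Real.rpow_pos_of_pos hε _)
  refine ⟨y, hy, ?_⟩
  exact (Real.rpow_lt_rpow_iff (N.nonneg _) hε.le hp).1 hy'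

omit [MetricSpace M] in
/-- Two linear maps agreeing on `δ` agree on the span of `δ`. -/
lemma eq_on_span {S T : F →ₗ[𝕜] F} {A : Set M} (h : ∀ x ∈ A, S (δ x) = T (δ x)) {y : F}
    (hy : y ∈ Submodule.span 𝕜 (δ '' A)) : S y = T y := by
  have : Submodule.span 𝕜 (δ '' A) ≤ LinearMap.eqLocus S T := by
    rw [Submodule.span_le]
    rintro _ ⟨x, hx, rfl⟩
    exact h x hx
  exact this hy

/-- Uniqueness: bounded linear maps agreeing on `δ` are equal. -/
lemma ext_of_delta (hp : 0 < p) (hF : IsFreePSpace 𝕜 p M o F N δ) (S T : F →ₗ[𝕜] F) {C : ℝ}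
    (hC : 0 < C) (hS : ∀ x, N.q (S x) ≤ C * N.q x) (hT : ∀ x, N.q (T x) ≤ C * N.q x)
    (h : ∀ x, S (δ x) = T (δ x)) (y : F) : S y = T y := by
  have hle : ∀ η > 0, N.q (S y - T y) ≤ η := by
    intro η hη
    obtain ⟨z, hz, hz'⟩ := exists_span_q_lt hp (hF.dense y) (η := η / (2 * C)) (by positivity)
    rw [← image_univ] at hz
    have e1 : S y - T y = S (y - z) - T (y - z) := by
      rw [map_sub, map_sub, eq_on_span (fun x _ => h x) hz]; abel
    rw [e1]
    calc N.q (S (y - z) - T (y - z)) ≤ N.q (S (y - z)) + N.q (T (y - z)) := N.q_sub _ _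
      _ ≤ C * (η / (2 * C)) + C * (η / (2 * C)) := by
        have h1 := hS (y - z)
        have h2 := hT (y - z)
        have h3 : C * N.q (y - z) ≤ C * (η / (2 * C)) := by gcongr
        linarith
      _ = η := by field_simp; ring
  have h0 : N.q (S y - T y) = 0 :=
    le_antisymm (le_of_forall_pos_le_add fun η hη => by simpa using hle η hη) (N.q_nonneg _)
  have h1 : N.nrm (S y - T y) = 0 := by
    by_contra hne
    have hpos : 0 < N.nrm (S y - T y) := lt_of_le_of_ne (N.nonneg _) (Ne.symm hne)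
    have := Real.rpow_pos_of_pos hpos p
    rw [PNorm.q] at h0
    linarith
  exact sub_eq_zero.1 (N.eq_zero _ h1)

/-- Multiplication operators for a sequence of disjointly supported Lipschitz functions. -/
lemma exists_mul_seq (hp : 0 < p) (hF : IsFreePSpace 𝕜 p M o F N δ) {D L : ℝ} (hD : 0 ≤ D)
    (hL : 0 ≤ L) (hbdd : ∀ x y : M, dist x y ≤ D) (ψ : ℕ → M → ℝ)
    (h0 : ∀ i x, 0 ≤ ψ i x) (h1 : ∀ i x, ψ i x ≤ 1)
    (hlip : ∀ i x y, |ψ i x - ψ i y| ≤ L * dist x y)
    (hdisj : ∀ x i j, ψ i x ≠ 0 → ψ j x ≠ 0 → i = j) :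
    ∃ T : ℕ → (F →ₗ[𝕜] F), (∀ i x, T i (δ x) = ((ψ i x : ℝ) : 𝕜) • δ x) ∧
      ∀ (G : Finset ℕ) (y : F), ∑ i ∈ G, N.q (T i y) ≤ K p D L * N.q y := by
  have hK : 0 < K p D L := K_pos hD hL
  have hone : ∀ i : ℕ, ∃ T : F →ₗ[𝕜] F, (∀ x, T (δ x) = ((ψ i x : ℝ) : 𝕜) • δ x) ∧
      ∀ y, N.q (T y) ≤ K p D L * N.q y := by
    intro i
    obtain ⟨T, hT, hT'⟩ := exists_mul hp hF hD hL hbdd 1 (fun _ => ψ i) (fun _ => h0 i)
      (fun _ => h1 i) (fun _ => hlip i) (fun _ a b _ _ => Subsingleton.elim a b)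
    refine ⟨T 0, fun x => hT 0 x, fun y => ?_⟩
    simpa using hT' y
  choose T hT hT' using hone
  refine ⟨T, hT, fun G y => ?_⟩
  obtain ⟨m, hm⟩ : ∃ m, G ⊆ Finset.range m := by
    refine ⟨G.sup id + 1, fun x hx => ?_⟩
    rw [Finset.mem_range]
    exact Nat.lt_succ_of_le (Finset.le_sup (f := id) hx)
  obtain ⟨S, hS, hS'⟩ := exists_mul hp hF hD hL hbdd m (fun i => ψ i) (fun i => h0 i)
    (fun i => h1 i) (fun i => hlip i) (fun x a b ha hb => Fin.ext (hdisj x a b ha hb))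
  have hST : ∀ i : Fin m, ∀ z, S i z = T i z := by
    intro i z
    apply ext_of_delta hp hF (S i) (T i) hK
    · intro x
      exact (Finset.single_le_sum (f := fun i => N.q (S i x)) (fun i _ => N.q_nonneg _)
        (Finset.mem_univ i)).trans (hS' x)
    · exact hT' i
    · intro x
      rw [hS, hT]
  calc ∑ i ∈ G, N.q (T i y) ≤ ∑ i ∈ Finset.range m, N.q (T i y) :=
        Finset.sum_le_sum_of_subset_of_nonneg hm fun i _ _ => N.q_nonneg _
    _ = ∑ i : Fin m, N.q (T i y) := (Fin.sum_univ_eq_sum_range (fun i => N.q (T i y)) m).symm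
    _ = ∑ i : Fin m, N.q (S i y) := by simp only [hST]
    _ ≤ _ := hS' y

end Mult

section Cutoff

variable {M : Type u} [MetricSpace M]

/-- cut-off vanishing on `[E]_{3r/4}` and equal to one off `[E]_r` -/
noncomputable def rho (r : ℝ) (E : Finset M) (x : M) : ℝ :=
  min 1 (max 0 ((4 / r) * (Metric.infDist x (E : Set M) - 3 * r / 4)))

/-- cut-off equal to one on `E` and vanishing off `[E]_{r/2}` -/
noncomputable def phi (r : ℝ) (E : Finset M) (x : M) : ℝ :=
  max 0 (1 - (2 / r) * Metric.infDist x (E : Set M))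

lemma rho_nonneg (r : ℝ) (E : Finset M) (x : M) : 0 ≤ rho r E x :=
  le_min zero_le_one (le_max_left _ _)

lemma rho_le_one (r : ℝ) (E : Finset M) (x : M) : rho r E x ≤ 1 := min_le_left _ _

lemma phi_nonneg (r : ℝ) (E : Finset M) (x : M) : 0 ≤ phi r E x := le_max_left _ _

lemma phi_le_one {r : ℝ} (hr : 0 < r) (E : Finset M) (x : M) : phi r E x ≤ 1 := by
  refine max_le zero_le_one ?_
  have : 0 ≤ (2 / r) * Metric.infDist x (E : Set M) := by
    have := Metric.infDist_nonneg (x := x) (s := (E : Set M))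
    positivity
  linarith

lemma abs_infDist_sub_le (E : Finset M) (x y : M) :
    |Metric.infDist x (E : Set M) - Metric.infDist y (E : Set M)| ≤ dist x y := by
  have := (Metric.lipschitz_infDist_pt (E : Set M)).dist_le_mul x y
  simpa [Real.dist_eq] using this

lemma rho_lip {r : ℝ} (hr : 0 < r) (E : Finset M) (x y : M) :
    |rho r E x - rho r E y| ≤ (4 / r) * dist x y := by
  unfold rho
  refine (abs_min_sub_min_le_max _ _ _ _).trans ?_
  rw [sub_self, abs_zero]
  refine max_le (by positivity) ?_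
  refine (abs_max_sub_max_le_max _ _ _ _).trans ?_
  rw [sub_self, abs_zero]
  refine max_le (by positivity) ?_
  have e : (4 / r) * (Metric.infDist x (E : Set M) - 3 * r / 4) -
      (4 / r) * (Metric.infDist y (E : Set M) - 3 * r / 4)
      = (4 / r) * (Metric.infDist x (E : Set M) - Metric.infDist y (E : Set M)) := by ring
  rw [e, abs_mul, abs_of_pos (by positivity : 0 < 4 / r)]
  gcongr
  exact abs_infDist_sub_le E x y

lemma phi_lip {r : ℝ} (hr : 0 < r) (E : Finset M) (x y : M) :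
    |phi r E x - phi r E y| ≤ (2 / r) * dist x y := by
  unfold phi
  refine (abs_max_sub_max_le_max _ _ _ _).trans ?_
  rw [sub_self, abs_zero]
  refine max_le (by positivity) ?_
  have e : (1 - (2 / r) * Metric.infDist x (E : Set M)) -
      (1 - (2 / r) * Metric.infDist y (E : Set M))
      = - ((2 / r) * (Metric.infDist x (E : Set M) - Metric.infDist y (E : Set M))) := by ring
  rw [e, abs_neg, abs_mul, abs_of_pos (by positivity : 0 < 2 / r)]
  gcongr
  exact abs_infDist_sub_le E x y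

/-- The bump function between `E` and `E'`. -/
noncomputable def bump (r : ℝ) (E E' : Finset M) (x : M) : ℝ := rho r E x * phi r E' x

lemma bump_nonneg (r : ℝ) (E E' : Finset M) (x : M) : 0 ≤ bump r E E' x :=
  mul_nonneg (rho_nonneg _ _ _) (phi_nonneg _ _ _)

lemma bump_le_one {r : ℝ} (hr : 0 < r) (E E' : Finset M) (x : M) : bump r E E' x ≤ 1 :=
  mul_le_one₀ (rho_le_one _ _ _) (phi_nonneg _ _ _) (phi_le_one hr _ _)

lemma bump_lip {r : ℝ} (hr : 0 < r) (E E' : Finset M) (x y : M) :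
    |bump r E E' x - bump r E E' y| ≤ (6 / r) * dist x y := by
  unfold bump
  have e : rho r E x * phi r E' x - rho r E y * phi r E' y
      = (rho r E x - rho r E y) * phi r E' x + rho r E y * (phi r E' x - phi r E' y) := by ring
  rw [e]
  refine (abs_add_le _ _).trans ?_
  rw [abs_mul, abs_mul, abs_of_nonneg (phi_nonneg _ _ _), abs_of_nonneg (rho_nonneg _ _ _)]
  have h1 := rho_lip hr E x y
  have h2 := phi_lip hr E' x y
  have h3 : |rho r E x - rho r E y| * phi r E' x ≤ (4 / r) * dist x y * 1 :=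
    mul_le_mul h1 (phi_le_one hr _ _) (phi_nonneg _ _ _) (by positivity)
  have h4 : rho r E y * |phi r E' x - phi r E' y| ≤ 1 * ((2 / r) * dist x y) :=
    mul_le_mul (rho_le_one _ _ _) h2 (abs_nonneg _) zero_le_one
  have : (6 / r) * dist x y = (4 / r) * dist x y * 1 + 1 * ((2 / r) * dist x y) := by ring
  linarith

lemma infDist_lt_of_phi_ne {r : ℝ} (hr : 0 < r) {E : Finset M} {x : M} (h : phi r E x ≠ 0) :
    Metric.infDist x (E : Set M) < r / 2 := by
  by_contra hcon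
  push Not at hcon
  apply h
  unfold phi
  apply max_eq_left
  have : 1 ≤ (2 / r) * Metric.infDist x (E : Set M) := by
    calc (1 : ℝ) = (2 / r) * (r / 2) := by field_simp
      _ ≤ _ := by gcongr
  linarith

lemma lt_infDist_of_rho_ne {r : ℝ} (hr : 0 < r) {E : Finset M} {x : M} (h : rho r E x ≠ 0) :
    3 * r / 4 < Metric.infDist x (E : Set M) := by
  by_contra hcon
  push Not at hcon
  apply h
  unfold rho
  have : (4 / r) * (Metric.infDist x (E : Set M) - 3 * r / 4) ≤ 0 :=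
    mul_nonpos_of_nonneg_of_nonpos (by positivity) (by linarith)
  rw [max_eq_left this]
  simp

lemma rho_eq_one {r : ℝ} (hr : 0 < r) {E : Finset M} {x : M}
    (h : r ≤ Metric.infDist x (E : Set M)) : rho r E x = 1 := by
  unfold rho
  have h1 : 1 ≤ (4 / r) * (Metric.infDist x (E : Set M) - 3 * r / 4) := by
    calc (1 : ℝ) = (4 / r) * (r - 3 * r / 4) := by field_simp; ring
      _ ≤ _ := by gcongr
  rw [max_eq_right (by linarith), min_eq_left h1]

lemma phi_eq_one {r : ℝ} {E : Finset M} {x : M} (h : x ∈ E) : phi r E x = 1 := by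
  unfold phi
  rw [Metric.infDist_zero_of_mem (by exact_mod_cast h), mul_zero, sub_zero]
  simp

end Cutoff

section Main

variable {𝕜 : Type v} [RCLike 𝕜] {p : ℝ}
variable {M : Type u} [MetricSpace M] {o : M}
variable {F : Type u} [AddCommGroup F] [Module 𝕜 F] {N : PNorm 𝕜 p F} {δ : M → F}

/-- `w - R w` lies in `F_p([E]_r ; M)` if `R` is multiplication by the cut-off `rho r E`. -/
lemma sub_mem_closedSpan (hp : 0 < p) (hF : IsFreePSpace 𝕜 p M o F N δ) {r : ℝ} (hr : 0 < r)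
    {E : Finset M} (hE : E.Nonempty) (R : F →ₗ[𝕜] F)
    (hR : ∀ x, R (δ x) = ((rho r E x : ℝ) : 𝕜) • δ x) {C : ℝ} (hC : 0 < C)
    (hRb : ∀ y, N.q (R y) ≤ C * N.q y) (w : F) :
    w - R w ∈ N.ClosedSpan (δ '' {x | ∃ e ∈ E, dist x e ≤ r}) := by
  apply mem_closedSpan_of_q hp
  intro η hη
  obtain ⟨y, hy, hy'⟩ := exists_span_q_lt hp (hF.dense w) (η := η / (1 + C)) (by positivity)
  refine ⟨y - R y, ?_, ?_⟩
  · have hle : Submodule.span 𝕜 (range δ) ≤
        (Submodule.span 𝕜 (δ '' {x | ∃ e ∈ E, dist x e ≤ r})).comap (LinearMap.id - R) := by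
      rw [Submodule.span_le]
      rintro _ ⟨x, rfl⟩
      simp only [Submodule.comap_coe, mem_preimage, LinearMap.sub_apply, LinearMap.id_coe, id_eq,
        SetLike.mem_coe, hR]
      by_cases hx : r ≤ Metric.infDist x (E : Set M)
      · rw [rho_eq_one hr hx]
        simp
      · push Not at hx
        have hne : (E : Set M).Nonempty := by exact_mod_cast hE
        obtain ⟨e, he, hxe⟩ := (Metric.infDist_lt_iff hne).1 hx
        have hmem : δ x ∈ Submodule.span 𝕜 (δ '' {x | ∃ e ∈ E, dist x e ≤ r}) :=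
          Submodule.subset_span ⟨x, ⟨e, by exact_mod_cast he, hxe.le⟩, rfl⟩
        exact Submodule.sub_mem _ hmem (Submodule.smul_mem _ _ hmem)
    have := hle hy
    simpa using this
  · have e1 : w - R w - (y - R y) = (w - y) - R (w - y) := by rw [map_sub]; abel
    rw [e1]
    calc N.q ((w - y) - R (w - y)) ≤ N.q (w - y) + N.q (R (w - y)) := N.q_sub _ _
      _ ≤ N.q (w - y) + C * N.q (w - y) := by
          have := hRb (w - y)
          linarith
      _ = (1 + C) * N.q (w - y) := by ring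
      _ < (1 + C) * (η / (1 + C)) := by gcongr
      _ = η := by field_simp

/-- The gliding hump construction. -/
lemma exists_sequences (hp : 0 < p) (hF : IsFreePSpace 𝕜 p M o F N δ) {W : Set F} {ε r η : ℝ}
    (hη : 0 < η)
    (hfail : ∀ E : Finset M, ∃ w ∈ W,
      ∀ z ∈ N.ClosedSpan (δ '' {x | ∃ e ∈ E, dist x e ≤ r}), ε < N.nrm (w - z)) :
    ∃ (Es : ℕ → Finset M) (x x' : ℕ → F), (∀ n, (Es n).Nonempty) ∧
      (∀ n m, n ≤ m → Es n ⊆ Es m) ∧ (∀ n, x n ∈ W) ∧
      (∀ n, ∀ z ∈ N.ClosedSpan (δ '' {x | ∃ e ∈ Es n, dist x e ≤ r}), ε < N.nrm (x n - z)) ∧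
      (∀ n, x' n ∈ Submodule.span 𝕜 (δ '' (↑(Es (n + 1)) : Set M))) ∧
      (∀ n, N.q (x n - x' n) < η) := by
  classical
  have step : ∀ E : Finset M, ∃ w y : F, ∃ E' : Finset M, w ∈ W ∧
      (∀ z ∈ N.ClosedSpan (δ '' {x | ∃ e ∈ E, dist x e ≤ r}), ε < N.nrm (w - z)) ∧ E ⊆ E' ∧
      y ∈ Submodule.span 𝕜 (δ '' (E' : Set M)) ∧ N.q (w - y) < η := by
    intro E
    obtain ⟨w, hw, hw'⟩ := hfail E
    obtain ⟨y, hy, hy'⟩ := exists_span_q_lt hp (hF.dense w) hη
    obtain ⟨c, hc⟩ := (Finsupp.mem_span_range_iff_exists_finsupp).1 hy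
    refine ⟨w, y, E ∪ c.support, hw, hw', Finset.subset_union_left, ?_, hy'⟩
    rw [← hc]
    refine Submodule.sum_mem _ fun i hi => Submodule.smul_mem _ _ (Submodule.subset_span ?_)
    exact ⟨i, by
      rw [Finset.coe_union]
      exact Or.inr (by exact_mod_cast hi), rfl⟩
  choose w y E' hwW hwd hEE hy hwy using step
  obtain ⟨Es, hEs0, hEs⟩ : ∃ Es : ℕ → Finset M, Es 0 = {o} ∧ ∀ n, Es (n + 1) = E' (Es n) :=
    ⟨fun n => Nat.rec {o} (fun _ E => E' E) n, rfl, fun n => rfl⟩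
  have hmono : ∀ n m, n ≤ m → Es n ⊆ Es m := by
    intro n m hnm
    induction m, hnm using Nat.le_induction with
    | base => exact subset_rfl
    | succ m _ ih =>
      rw [hEs]
      exact ih.trans (hEE (Es m))
  refine ⟨Es, fun n => w (Es n), fun n => y (Es n), fun n => ?_, hmono, fun n => hwW _,
    fun n => hwd _, fun n => ?_, fun n => hwy _⟩
  · have h0 : o ∈ Es 0 := by rw [hEs0]; exact Finset.mem_singleton_self o
    exact ⟨o, hmono 0 n (Nat.zero_le n) h0⟩
  · rw [hEs]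
    exact hy (Es n)

/-- The supports of the bumps are disjoint. -/
lemma bump_disj {r : ℝ} (hr : 0 < r) {Es : ℕ → Finset M} (hne : ∀ n, (Es n).Nonempty)
    (hmono : ∀ n m, n ≤ m → Es n ⊆ Es m) (a : M) (i j : ℕ)
    (hi : bump r (Es i) (Es (i + 1)) a ≠ 0) (hj : bump r (Es j) (Es (j + 1)) a ≠ 0) : i = j := by
  have hdisj0 : ∀ i j, i < j → bump r (Es i) (Es (i + 1)) a ≠ 0 →
      bump r (Es j) (Es (j + 1)) a ≠ 0 → False := by
    intro i j hij hi hj
    have h1 : phi r (Es (i + 1)) a ≠ 0 := right_ne_zero_of_mul hi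
    have h2 : rho r (Es j) a ≠ 0 := left_ne_zero_of_mul hj
    have h3 := infDist_lt_of_phi_ne hr h1
    have h4 := lt_infDist_of_rho_ne hr h2
    have h5 : Metric.infDist a (↑(Es j) : Set M) ≤ Metric.infDist a (↑(Es (i + 1)) : Set M) := by
      apply Metric.infDist_le_infDist_of_subset
      · exact_mod_cast hmono (i + 1) j hij
      · exact_mod_cast hne (i + 1)
    linarith
  rcases lt_trichotomy i j with h | h | h
  · exact (hdisj0 i j h hi hj).elim
  · exact h
  · exact (hdisj0 j i h hj hi).elim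

/-- The diagonal estimate. -/
lemma diag_estimate (hp : 0 < p) (hF : IsFreePSpace 𝕜 p M o F N δ) {D ε r η : ℝ} (hD0 : 0 ≤ D)
    (hD : ∀ x y : M, dist x y ≤ D) (hε : 0 < ε) (hr : 0 < r) {E E' : Finset M}
    (hE : E.Nonempty) {x x' : F}
    (hx : ∀ z ∈ N.ClosedSpan (δ '' {x | ∃ e ∈ E, dist x e ≤ r}), ε < N.nrm (x - z))
    (hx' : x' ∈ Submodule.span 𝕜 (δ '' (E' : Set M))) (hxx' : N.q (x - x') < η)
    (T : F →ₗ[𝕜] F) (hT : ∀ a, T (δ a) = ((bump r E E' a : ℝ) : 𝕜) • δ a) :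
    ε ^ p - K p D (6 / r) * η ≤ N.q (T x') := by
  have hL0 : (0 : ℝ) ≤ 6 / r := by positivity
  have hC : 0 < K p D (6 / r) := K_pos hD0 hL0
  obtain ⟨S, hS, hS'⟩ := exists_mul (N := N) hp hF hD0 hL0 hD 1 (fun _ => rho r E)
    (fun _ a => rho_nonneg _ _ a) (fun _ a => rho_le_one _ _ a)
    (fun _ a b => (rho_lip hr _ a b).trans (by
      have : (4 : ℝ) / r ≤ 6 / r := by gcongr; norm_num
      gcongr)) (fun _ a b _ _ => Subsingleton.elim a b)
  have hRb : ∀ z, N.q (S 0 z) ≤ K p D (6 / r) * N.q z := fun z => by simpa using hS' z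
  have hTR : T x' = S 0 x' := by
    apply eq_on_span (A := (E' : Set M)) _ hx'
    intro a ha
    rw [hT, hS]
    have : bump r E E' a = rho r E a := by
      unfold bump
      rw [phi_eq_one (by exact_mod_cast ha), mul_one]
    rw [this]
  have h1 : ε < N.nrm (x - (x - S 0 x)) :=
    hx _ (sub_mem_closedSpan hp hF hr hE (S 0) (hS 0) hC hRb x)
  rw [sub_sub_cancel] at h1
  have h2 : ε ^ p ≤ N.q (S 0 x) := Real.rpow_le_rpow hε.le h1.le hp.le
  have h3 : N.q (S 0 x) ≤ N.q (S 0 x') + N.q (S 0 x - S 0 x') := N.q_le_add_sub _ _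
  rw [← map_sub] at h3
  have h4 := hRb (x - x')
  have h5 : K p D (6 / r) * N.q (x - x') ≤ K p D (6 / r) * η := by gcongr
  rw [hTR]
  linarith

/-- The lower `ℓ_p` estimate from an almost diagonal family of operators. -/
lemma lower_estimate (hp : 0 < p) {κ C η : ℝ} (hκ : 0 < κ) (hC : 0 < C)
    (hCη : C * η = κ / 8) (T : ℕ → (F →ₗ[𝕜] F))
    (hTb : ∀ (G : Finset ℕ) (y : F), ∑ i ∈ G, N.q (T i y) ≤ C * N.q y)
    (x x' : ℕ → F) (hxx' : ∀ n, N.q (x n - x' n) < η)
    (hdiag : ∀ n, 7 / 8 * κ ≤ N.q (T n (x' n))) {φ : ℕ → ℕ} (hφ : Function.Injective φ)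
    (hoff : ∀ j, ∀ G : Finset ℕ, j ∉ G → ∑ i ∈ G, N.q (T (φ i) (x' (φ j))) ≤ κ / 4)
    (G : Finset ℕ) (a : ℕ → 𝕜) :
    (κ / (2 * C)) * ∑ n ∈ G, ‖a n‖ ^ p ≤ N.q (∑ n ∈ G, a n • x (φ n)) := by
  classical
  set S : ℝ := ∑ n ∈ G, ‖a n‖ ^ p with hS
  set z : F := ∑ n ∈ G, a n • x' (φ n) with hz
  have hrow : ∀ i ∈ G, ‖a i‖ ^ p * (7 / 8 * κ) ≤ N.q (T (φ i) z) +
      ∑ j ∈ G.erase i, ‖a j‖ ^ p * N.q (T (φ i) (x' (φ j))) := by
    intro i hi
    have e1 : T (φ i) z = a i • T (φ i) (x' (φ i))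
        + ∑ j ∈ G.erase i, a j • T (φ i) (x' (φ j)) := by
      rw [hz, map_sum]
      simp only [map_smul]
      rw [Finset.add_sum_erase G (fun j => a j • T (φ i) (x' (φ j))) hi]
    have h1 : N.q (a i • T (φ i) (x' (φ i))) ≤ N.q (T (φ i) z)
        + N.q (∑ j ∈ G.erase i, a j • T (φ i) (x' (φ j))) := by
      have : a i • T (φ i) (x' (φ i)) = T (φ i) z
          - ∑ j ∈ G.erase i, a j • T (φ i) (x' (φ j)) := by
        rw [e1]; abel
      rw [this]
      exact N.q_sub _ _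
    have h2 : N.q (∑ j ∈ G.erase i, a j • T (φ i) (x' (φ j))) ≤
        ∑ j ∈ G.erase i, ‖a j‖ ^ p * N.q (T (φ i) (x' (φ j))) := by
      refine (N.q_sum hp _ _).trans (le_of_eq ?_)
      refine Finset.sum_congr rfl fun j _ => ?_
      rw [N.q_smul]
    rw [N.q_smul] at h1
    have h3 : ‖a i‖ ^ p * (7 / 8 * κ) ≤ ‖a i‖ ^ p * N.q (T (φ i) (x' (φ i))) := by
      have := hdiag (φ i)
      gcongr
    linarith
  have hsum := Finset.sum_le_sum hrow
  rw [Finset.sum_add_distrib, ← Finset.sum_mul, ← hS] at hsum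
  have hdouble : ∑ i ∈ G, ∑ j ∈ G.erase i, ‖a j‖ ^ p * N.q (T (φ i) (x' (φ j)))
      ≤ S * (κ / 4) := by
    have hcomm : ∑ i ∈ G, ∑ j ∈ G.erase i, ‖a j‖ ^ p * N.q (T (φ i) (x' (φ j)))
        = ∑ j ∈ G, ∑ i ∈ G.erase j, ‖a j‖ ^ p * N.q (T (φ i) (x' (φ j))) := by
      apply Finset.sum_comm'
      intro i j
      simp only [Finset.mem_erase, ne_eq]
      constructor
      · rintro ⟨h1, h2, h3⟩
        exact ⟨⟨fun h => h2 h.symm, h1⟩, h3⟩
      · rintro ⟨⟨h1, h2⟩, h3⟩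
        exact ⟨h2, fun h => h1 h.symm, h3⟩
    rw [hcomm, hS, Finset.sum_mul]
    refine Finset.sum_le_sum fun j _ => ?_
    rw [← Finset.mul_sum]
    have := hoff j (G.erase j) (Finset.notMem_erase j G)
    gcongr
  have hTz : ∑ i ∈ G, N.q (T (φ i) z) ≤ C * N.q z := by
    have := hTb (G.image φ) z
    rwa [Finset.sum_image (fun a _ b _ hab => hφ hab)] at this
  have hzlow : S * (5 / 8 * κ) ≤ C * N.q z := by linarith
  have hdiff : N.q (z - ∑ n ∈ G, a n • x (φ n)) ≤ S * η := by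
    rw [hz, ← Finset.sum_sub_distrib, hS, Finset.sum_mul]
    refine (N.q_sum hp _ _).trans (Finset.sum_le_sum fun n _ => ?_)
    rw [← smul_sub, N.q_smul]
    have h1 : N.q (x' (φ n) - x (φ n)) = N.q (x (φ n) - x' (φ n)) := by
      rw [← neg_sub, N.q_neg]
    have h2 := (hxx' (φ n)).le
    rw [h1]
    gcongr
  have h1 := N.q_le_add_sub z (∑ n ∈ G, a n • x (φ n))
  have h2 : C * N.q z ≤ C * N.q (∑ n ∈ G, a n • x (φ n)) + S * (κ / 8) := by
    calc C * N.q z ≤ C * (N.q (∑ n ∈ G, a n • x (φ n)) + S * η) := by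
          gcongr
          linarith
      _ = C * N.q (∑ n ∈ G, a n • x (φ n)) + S * (C * η) := by ring
      _ = _ := by rw [hCη]
  have h3 : S * (κ / 2) ≤ C * N.q (∑ n ∈ G, a n • x (φ n)) := by linarith
  have h4 : κ / (2 * C) * S = (S * (κ / 2)) / C := by field_simp
  rw [h4, div_le_iff₀ hC]
  linarith

/-- **Main theorem.** Let `0 < p ≤ 1`, let `M` be a bounded metric space and let `W` be a bounded
subset of the Lipschitz free `p`-space of `M` which fails Kalton's property. Then `W` contains a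
sequence equivalent to the canonical basis of `ℓ_p`. -/
theorem result (𝕜 : Type v) [RCLike 𝕜] (p : ℝ) (hp : 0 < p) (_hp1 : p ≤ 1)
    (M : Type u) [MetricSpace M] (o : M) (hM : ∃ D : ℝ, ∀ x y : M, dist x y ≤ D)
    (F : Type u) [AddCommGroup F] [Module 𝕜 F] (N : PNorm 𝕜 p F) (δ : M → F)
    (hF : IsFreePSpace 𝕜 p M o F N δ)
    (W : Set F) (hW : ∃ B : ℝ, ∀ w ∈ W, N.nrm w ≤ B) (hK : ¬ KaltonProperty N δ W) :
    ∃ x : ℕ → F, (∀ n, x n ∈ W) ∧ EquivLpBasis N x := by
  classical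
  obtain ⟨D, hD⟩ := hM
  have hD0 : 0 ≤ D := dist_nonneg.trans (hD o o)
  obtain ⟨B, hB⟩ := hW
  unfold KaltonProperty at hK
  push Not at hK
  obtain ⟨ε, hε, r, hr, hfail⟩ := hK
  have hL0 : (0 : ℝ) ≤ 6 / r := by positivity
  obtain ⟨C, hCdef⟩ : ∃ C, C = K p D (6 / r) := ⟨_, rfl⟩
  have hC : 0 < C := by rw [hCdef]; exact K_pos hD0 hL0
  obtain ⟨κ, hκdef⟩ : ∃ κ, κ = ε ^ p := ⟨_, rfl⟩
  have hκ : 0 < κ := by rw [hκdef]; exact Real.rpow_pos_of_pos hε p
  obtain ⟨η, hηdef⟩ : ∃ η, η = κ / (8 * C) := ⟨_, rfl⟩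
  have hη : 0 < η := by rw [hηdef]; positivity
  have hCη : C * η = κ / 8 := by rw [hηdef]; field_simp
  obtain ⟨Es, x, x', hne, hmono, hxW, hxd, hx'span, hxx'⟩ := exists_sequences hp hF hη hfail
  obtain ⟨T, hT, hTb⟩ := exists_mul_seq hp hF hD0 hL0 hD (fun n => bump r (Es n) (Es (n + 1)))
    (fun i a => bump_nonneg _ _ _ _) (fun i a => bump_le_one hr _ _ _)
    (fun i a b => bump_lip hr _ _ a b) (bump_disj hr hne hmono)
  rw [← hCdef] at hTb
  have hqx : ∀ n, N.q (x n) ≤ B ^ p := fun n =>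
    Real.rpow_le_rpow (N.nonneg _) (hB _ (hxW _)) hp.le
  have hdiag : ∀ n, 7 / 8 * κ ≤ N.q (T n (x' n)) := by
    intro n
    have := diag_estimate hp hF hD0 hD hε hr (hne n) (hxd n) (hx'span n) (hxx' n) (T n) (hT n)
    rw [← hCdef, ← hκdef, hCη] at this
    linarith
  -- the matrix
  obtain ⟨k, hk⟩ := exists_nat_ge ((C * (B ^ p + η)) / (κ / 4))
  have hk' : C * (B ^ p + η) ≤ k * (κ / 4) := by
    rwa [div_le_iff₀ (by positivity)] at hk
  obtain ⟨φ, hφ, hoff⟩ := rosenthal (κ / 4) (by positivity) k (fun n m => N.q (T m (x' n)))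
    (fun _ _ => N.q_nonneg _) (fun n G _ => by
      refine (hTb G (x' n)).trans (le_trans ?_ hk')
      have h1 : N.q (x' n) ≤ N.q (x n) + N.q (x' n - x n) := N.q_le_add_sub _ _
      have h2 : N.q (x' n - x n) = N.q (x n - x' n) := by
        rw [← neg_sub, N.q_neg]
      have h3 := hxx' n
      have h4 := hqx n
      gcongr
      linarith)
  refine ⟨fun n => x (φ n), fun n => hxW _, ?_⟩
  obtain ⟨c₀, hc₀⟩ : ∃ c, c = κ / (2 * C) := ⟨_, rfl⟩
  have hc₀pos : 0 < c₀ := by rw [hc₀]; positivity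
  refine ⟨c₀ ^ (1 / p), (max (B ^ p) c₀) ^ (1 / p), by positivity,
    Real.rpow_le_rpow hc₀pos.le (le_max_right _ _) (by positivity), ?_⟩
  intro a
  have hS0 : 0 ≤ ∑ n ∈ a.support, ‖a n‖ ^ p :=
    Finset.sum_nonneg fun _ _ => Real.rpow_nonneg (norm_nonneg _) _
  have hmax0 : 0 ≤ max (B ^ p) c₀ := hc₀pos.le.trans (le_max_right _ _)
  constructor
  · -- lower estimate
    have hfin := lower_estimate hp hκ hC hCη T hTb x x' hxx' hdiag hφ hoff a.support a
    rw [← hc₀] at hfin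
    have h5 : (c₀ * ∑ n ∈ a.support, ‖a n‖ ^ p) ^ (1 / p)
        ≤ (N.q (∑ n ∈ a.support, a n • x (φ n))) ^ (1 / p) :=
      Real.rpow_le_rpow (by positivity) hfin (by positivity)
    rwa [Real.mul_rpow hc₀pos.le hS0, PNorm.q, ← Real.rpow_mul (N.nonneg _),
      mul_one_div_cancel hp.ne', Real.rpow_one] at h5
  · -- upper estimate
    rw [← Real.mul_rpow hmax0 hS0]
    apply N.nrm_le_of_q_le hp
    refine (N.q_sum hp _ _).trans ?_
    rw [Finset.mul_sum]
    refine Finset.sum_le_sum fun n _ => ?_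
    rw [N.q_smul, mul_comm]
    have := (hqx (φ n)).trans (le_max_left (B ^ p) c₀)
    gcongr

end Main

end Pool.Agent.Results.MP_1a7c10_an.KaltonLp
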